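import Pool.Agent.Helper26.DA.Goals

/-!
# Packet DA-LAP: Laplace expansion along a row
-/

set_option autoImplicit false

namespace Pool.Agent.Helper82.DA

open Pool.Agent.Helper26.DA

universe w

theorem stepLAP (R : Type w) [CommRing R] (e : ℕ) (f : Fin e → R) (t : ℕ) :
    MI (t + 1) f ≤ MI t f := by
  unfold MI
  rw [Ideal.span_le]
  rintro m ⟨c, l, hc, rfl⟩
  rw [Matrix.det_succ_row_zero]
  refine Ideal.sum_mem _ fun j _ => ?_
  refine Ideal.mul_mem_left _ _ ?_
  refine Ideal.subset_span ⟨fun i => c i.succ, fun k => l (j.succAbove k), fun i => hc _, ?_⟩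
  rfl

theorem gLAP : G_LAP.{w} := by
  intro R _ e f s t hst
  induction t, hst using Nat.le_induction with
  | base => exact le_refl _
  | succ n _ ih => exact (stepLAP R e f n).trans ih

end Pool.Agent.Helper82.DA
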